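import Pool.Agent.Helper462_Helly.Tables

/-!
Accepted words modulo the moves of length two, and the action of the letters on them.
-/

set_option autoImplicit false

namespace Pool.Agent.Helper462

/-- The state of a word (head is the leftmost letter). -/
def run : List (Fin 12) → Fin 38
  | [] => 1
  | t :: u => step (run u) t

theorem run_cons (t : Fin 12) (u : List (Fin 12)) : run (t :: u) = step (run u) t := rfl

/-- Equivalence of accepted words. -/
inductive E : List (Fin 12) → List (Fin 12) → Prop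
  | nil : E [] []
  | cons (t : Fin 12) {u v : List (Fin 12)} : E u v → E (t :: u) (t :: v)
  | sq {t s p q : Fin 12} {u v y : List (Fin 12)} :
      R t p s q → E u (p :: y) → E v (q :: y) → E (t :: u) (s :: v)

theorem E.refl : ∀ u, E u u
  | [] => E.nil
  | t :: u => E.cons t (E.refl u)

theorem E.symm {u v : List (Fin 12)} (h : E u v) : E v u := by
  induction h with
  | nil => exact E.nil
  | cons t _ ih => exact E.cons t ih
  | sq hR h1 h2 _ _ => exact E.sq (R_symm hR) h2 h1

theorem E.len {u v : List (Fin 12)} (h : E u v) : u.length = v.length := by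
  induction h with
  | nil => rfl
  | cons t _ ih => simp [ih]
  | sq hR h1 h2 ih1 ih2 => simp at ih1 ih2; simp [ih1, ih2]

theorem E.run {u v : List (Fin 12)} (h : E u v) : run u = run v := by
  induction h with
  | nil => rfl
  | cons t _ ih => simp [run_cons, ih]
  | sq hR h1 h2 ih1 ih2 =>
    rw [run_cons, run_cons, ih1, ih2, run_cons, run_cons]
    exact fc1 hR _

theorem run_tail {t : Fin 12} {u : List (Fin 12)} (h : run (t :: u) ≠ 0) : run u ≠ 0 := by
  intro h'
  apply h
  rw [run_cons, h']
  exact step_zero t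

theorem E.swap {t p s q : Fin 12} (h : C t p s q) (y : List (Fin 12)) :
    E (t :: p :: y) (s :: q :: y) := by
  by_cases e : t = s
  · subst e
    rw [R_cancel _ _ _ h]
    exact E.refl _
  · exact E.sq ⟨e, h⟩ (E.refl _) (E.refl _)

theorem E.trans_aux (n : ℕ) : ∀ x y z : List (Fin 12), x.length = n → Helper462.run y ≠ 0 →
    E x y → E y z → E x z := by
  induction n with
  | zero =>
    intro x y z hn hy h1 h2
    have hx : x = [] := List.eq_nil_of_length_eq_zero hn
    subst hx
    cases h1
    exact h2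
  | succ n ih =>
    intro x y z hn hy h1 h2
    have hx : Helper462.run x ≠ 0 := by rw [h1.run]; exact hy
    have hz : Helper462.run z ≠ 0 := by rw [← h2.run]; exact hy
    cases h1 with
    | nil => exact h2
    | cons t h1 =>
      rename_i u v
      have hu : u.length = n := by simpa using hn
      have hv : Helper462.run v ≠ 0 := run_tail hy
      cases h2 with
      | cons _ h2 =>
        exact E.cons t (ih _ _ _ hu hv h1 h2)
      | sq hR h2 h3 =>
        exact E.sq hR (ih _ _ _ hu hv h1 h2) h3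
    | sq hR h1 h1' =>
      rename_i t s p q u v y1
      have hu : u.length = n := by simpa using hn
      have hv : Helper462.run v ≠ 0 := run_tail hy
      have hu0 : Helper462.run u ≠ 0 := run_tail hx
      have hvl : v.length = n := by
        have e1 := h1.len
        have e2 := h1'.len
        simp at e1 e2
        omega
      cases h2 with
      | cons _ h2 =>
        rename_i w
        have e2 : w.length = n := by
          have := h2.len
          omega
        exact E.sq hR h1 (ih _ _ _ e2 hv h2.symm h1')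
      | sq hR2 h2 h2' =>
        rename_i r p' q' w y2
        have hw0 : Helper462.run w ≠ 0 := run_tail hz
        have hwl : w.length = n := by
          have e1 := h2.len
          have e2 := h2'.len
          simp at e1 e2
          omega
        have hq : Helper462.run (q :: y1) ≠ 0 := by rw [← h1'.run]; exact hv
        have hp : Helper462.run (p :: y1) ≠ 0 := by rw [← h1.run]; exact hu0
        have hq' : Helper462.run (q' :: y2) ≠ 0 := by rw [← h2'.run]; exact hw0
        have hy1l : y1.length + 1 = n := by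
          have e1 := h1.len
          simp at e1
          omega
        have key : E (q :: y1) (p' :: y2) :=
          ih _ _ _ (by simpa using hy1l) hv h1'.symm h2
        cases key with
        | cons _ key =>
          -- q = p'
          have h3 : E w (q' :: y1) := ih _ _ _ hwl hq' h2' (E.cons q' key.symm)
          rcases R_trans hR hR2 with ⟨e1, e2⟩ | hR3
          · subst e1
            subst e2
            exact E.cons _ (ih _ _ _ hu hp h1 h3.symm)
          · exact E.sq hR3 h1 h3
        | sq hR3 k1 k2 =>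
          rename_i m k y3
          have g1 : E u (p :: m :: y3) := ih _ _ _ hu hp h1 (E.cons p k1)
          have g2 : E w (q' :: k :: y3) := ih _ _ _ hwl hq' h2' (E.cons q' k2)
          rcases fc3 hR3 hR hR2 with ⟨e1, hC⟩ | ⟨p0, j, hC1, q0, hC2, hR4⟩ | hZ
          · subst e1
            have g3 : E (p :: m :: y3) (q' :: k :: y3) := E.swap hC _
            have g4 : E u (q' :: k :: y3) :=
              ih _ _ _ hu (by rw [← g1.run]; exact hu0) g1 g3
            exact E.cons _ (ih _ _ _ hu (by rw [← g2.run]; exact hw0) g4 g2.symm)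
          · have g3 : E u (p0 :: j :: y3) :=
              ih _ _ _ hu (by rw [← g1.run]; exact hu0) g1 (E.swap hC1 _)
            have g4 : E w (q0 :: j :: y3) :=
              ih _ _ _ hwl (by rw [← g2.run]; exact hw0) g2 (E.swap hC2 _)
            exact E.sq hR4 g3 g4
          · exfalso
            apply hy
            rw [run_cons, h1'.run, run_cons, k1.run, run_cons]
            exact hZ _

theorem E.trans {x y z : List (Fin 12)} (hy : Helper462.run y ≠ 0) (h1 : E x y) (h2 : E y z) :
    E x z := E.trans_aux _ x y z rfl hy h1 h2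

/-- Left cancellation. -/
theorem E.cancel {t : Fin 12} {u v : List (Fin 12)} (h : E (t :: u) (t :: v)) : E u v := by
  cases h with
  | cons _ h => exact h
  | sq hR h1 h2 => exact absurd rfl hR.1

theorem E.inv_sq {t s : Fin 12} {u v : List (Fin 12)} (hts : t ≠ s) (h : E (t :: u) (s :: v)) :
    ∃ p q y, R t p s q ∧ E u (p :: y) ∧ E v (q :: y) := by
  cases h with
  | cons _ h => exact absurd rfl hts
  | sq hR h1 h2 => exact ⟨_, _, _, hR, h1, h2⟩

/-- A letter that cannot be added on the left can be removed. -/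
theorem exists_down : ∀ w : List (Fin 12), run w ≠ 0 → ∀ t, step (run w) t = 0 →
    ∃ w', E w (inv t :: w') := by
  intro w
  induction w with
  | nil => intro _ t ht; exact absurd ht (fc0 t)
  | cons s u ih =>
    intro hw t ht
    rw [run_cons] at ht
    have hu : run u ≠ 0 := run_tail hw
    by_cases e : t = inv s
    · subst e
      rw [inv_inv]
      exact ⟨u, E.refl _⟩
    · obtain ⟨p, q, h1, h2⟩ := fc2 hw ht e
      obtain ⟨u', hu'⟩ := ih hu p h1
      exact ⟨q :: u', E.sq h2 hu' (E.refl _)⟩

/-- Accepted words. -/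
abbrev Wd := {w : List (Fin 12) // run w ≠ 0}

instance wdSetoid : Setoid Wd where
  r x y := E x.1 y.1
  iseqv :=
    { refl := fun x => E.refl x.1
      symm := fun h => E.symm h
      trans := fun {_ y _} h1 h2 => E.trans y.2 h1 h2 }

/-- Accepted words modulo equivalence. -/
def Om := Quotient wdSetoid

/-- The class of an accepted word. -/
def mk (w : List (Fin 12)) (h : run w ≠ 0) : Om := Quotient.mk wdSetoid ⟨w, h⟩

theorem mk_eq {w v : List (Fin 12)} {hw : run w ≠ 0} {hv : run v ≠ 0} :
    mk w hw = mk v hv ↔ E w v := by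
  constructor
  · intro h
    exact Quotient.exact h
  · intro h
    exact Quotient.sound h

theorem mk_surj (x : Om) : ∃ w h, x = mk w h := by
  obtain ⟨⟨w, h⟩, rfl⟩ := Quotient.exists_rep x
  exact ⟨w, h, rfl⟩

/-- `Act t x y` says that `y` is `t x`. -/
def Act (t : Fin 12) (x y : Om) : Prop :=
  (∃ w h h', x = mk w h ∧ y = mk (t :: w) h') ∨ (∃ w h h', y = mk w h ∧ x = mk (inv t :: w) h')

theorem Act.symm {t : Fin 12} {x y : Om} (h : Act t x y) : Act (inv t) y x := by
  rcases h with ⟨w, h, h', rfl, rfl⟩ | ⟨w, h, h', rfl, rfl⟩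
  · right
    refine ⟨w, h, ?_, rfl, ?_⟩
    · rw [inv_inv]; exact h'
    · simp only [inv_inv]
  · left
    exact ⟨w, h, h', rfl, rfl⟩

theorem act_exists (t : Fin 12) (x : Om) : ∃ y, Act t x y := by
  obtain ⟨w, h, rfl⟩ := mk_surj x
  by_cases h' : step (run w) t = 0
  · obtain ⟨w', hw'⟩ := exists_down w h t h'
    have h1 : run (inv t :: w') ≠ 0 := by rw [← hw'.run]; exact h
    exact ⟨mk w' (run_tail h1), Or.inr ⟨w', run_tail h1, h1, rfl, mk_eq.2 hw'⟩⟩
  · exact ⟨mk (t :: w) h', Or.inl ⟨w, h, h', rfl, rfl⟩⟩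

theorem not_up_down {t : Fin 12} {w v : List (Fin 12)} (h' : run (t :: w) ≠ 0)
    (h : E w (inv t :: v)) : False := by
  apply h'
  rw [run_cons, h.run, run_cons]
  have := step_inv (run v) (inv t)
  rwa [inv_inv] at this

theorem act_unique {t : Fin 12} {x y z : Om} (h1 : Act t x y) (h2 : Act t x z) : y = z := by
  rcases h1 with ⟨w, hw, hw', rfl, rfl⟩ | ⟨w, hw, hw', rfl, rfl⟩ <;>
    rcases h2 with ⟨v, hv, hv', e, rfl⟩ | ⟨v, hv, hv', rfl, e⟩
  · exact mk_eq.2 (E.cons t (mk_eq.1 e))
  · exact (not_up_down hw' (mk_eq.1 e)).elim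
  · exact (not_up_down hv' (mk_eq.1 e).symm).elim
  · exact mk_eq.2 (E.cancel (mk_eq.1 e))

theorem pc_inv : ∀ s, pc s (inv s) = 0 := by decide +kernel

theorem not_run_inv {s : Fin 12} {v : List (Fin 12)} (h : run (s :: inv s :: v) ≠ 0) : False := by
  apply h
  rw [run_cons, run_cons]
  have := step_inv (run v) (inv s)
  rwa [inv_inv] at this

theorem rel_uu {s t s' t' : Fin 12} (hR : R s t s' t') {w : List (Fin 12)} (hw : run w ≠ 0)
    (h : run (s :: t :: w) ≠ 0) : ∃ y', Act t' (mk w hw) y' ∧ Act s' y' (mk (s :: t :: w) h) := by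
  have e : E (s :: t :: w) (s' :: t' :: w) := E.swap hR.2 w
  have h' : run (s' :: t' :: w) ≠ 0 := by rw [← e.run]; exact h
  exact ⟨mk (t' :: w) (run_tail h'), Or.inl ⟨w, hw, run_tail h', rfl, rfl⟩,
    Or.inl ⟨t' :: w, run_tail h', h', rfl, mk_eq.2 e⟩⟩

theorem rel_dd {s t s' t' : Fin 12} (hR : R s t s' t') {v : List (Fin 12)} (hv : run v ≠ 0)
    (h : run (inv t :: inv s :: v) ≠ 0) :
    ∃ y', Act t' (mk (inv t :: inv s :: v) h) y' ∧ Act s' y' (mk v hv) := by
  have e : E (inv t :: inv s :: v) (inv t' :: inv s' :: v) := E.swap (fc4a hR).2 v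
  have h' : run (inv t' :: inv s' :: v) ≠ 0 := by rw [← e.run]; exact h
  exact ⟨mk (inv s' :: v) (run_tail h'), Or.inr ⟨inv s' :: v, run_tail h', h', rfl, mk_eq.2 e⟩,
    Or.inr ⟨v, hv, run_tail h', rfl, rfl⟩⟩

theorem rel_ud {s t s' t' : Fin 12} (hR : R s t s' t') {w v : List (Fin 12)} (hw : run w ≠ 0)
    (hv : run v ≠ 0) (h : run (t :: w) ≠ 0) (hE : E (t :: w) (inv s :: v)) :
    ∃ y', Act t' (mk w hw) y' ∧ Act s' y' (mk v hv) := by
  have hts : t ≠ inv s := by
    intro e
    apply hR.2.1
    rw [e]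
    exact pc_inv s
  obtain ⟨p, q, y0, hR1, h1, h2⟩ := E.inv_sq hts hE
  have hpy : run (p :: y0) ≠ 0 := by rw [← h1.run]; exact hw
  have hqy : run (q :: y0) ≠ 0 := by rw [← h2.run]; exact hv
  rcases fc4c hR hR1 with ⟨ht', hR2⟩ | ⟨ht', hs'⟩
  · by_cases hu : step (run w) t' = 0
    · obtain ⟨w', hw'⟩ := exists_down w hw t' hu
      have hE2 : E (p :: y0) (inv t' :: w') := E.trans hw h1.symm hw'
      have hne : p ≠ inv t' := by
        intro e
        apply ht'
        rw [e, inv_inv]
      obtain ⟨m, k, y1, hR3, h3, h4⟩ := E.inv_sq hne hE2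
      have hiw : run (inv t' :: w') ≠ 0 := by rw [← hw'.run]; exact hw
      have hw'0 : run w' ≠ 0 := run_tail hiw
      have h5 : E v (q :: m :: y1) := E.trans hqy h2 (E.cons q h3)
      have h5r : run (q :: m :: y1) ≠ 0 := by rw [← h5.run]; exact hv
      have h6 : E (q :: m :: y1) (s' :: k :: y1) := by
        rcases fc4e hR hR1 hR3 with hR4 | ⟨e1, e2⟩ | e1
        · exact E.swap hR4.2 y1
        · rw [e1, e2]
          exact E.refl _
        · rw [e1] at h5r
          exact (not_run_inv h5r).elim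
      have h7 : E v (s' :: k :: y1) := E.trans h5r h5 h6
      have h7r : run (s' :: k :: y1) ≠ 0 := by rw [← h7.run]; exact hv
      have h8 : E v (s' :: w') := E.trans h7r h7 (E.cons s' h4.symm)
      have h8r : run (s' :: w') ≠ 0 := by rw [← h8.run]; exact hv
      exact ⟨mk w' hw'0, Or.inr ⟨w', hw'0, hiw, rfl, mk_eq.2 hw'⟩,
        Or.inl ⟨w', hw'0, h8r, rfl, mk_eq.2 h8⟩⟩
    · have hu' : run (t' :: w) ≠ 0 := hu
      have h3 : E (t' :: w) (t' :: p :: y0) := E.cons t' h1
      have h3r : run (t' :: p :: y0) ≠ 0 := by rw [← h3.run]; exact hu'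
      have h4 : E (t' :: w) (inv s' :: q :: y0) := E.trans h3r h3 (E.swap hR2.2 y0)
      have h4r : run (inv s' :: q :: y0) ≠ 0 := by rw [← h4.run]; exact hu'
      exact ⟨mk (t' :: w) hu', Or.inl ⟨w, hw, hu', rfl, rfl⟩,
        Or.inr ⟨q :: y0, hqy, h4r, mk_eq.2 h2, mk_eq.2 h4⟩⟩
  · subst hs'
    have hp : p = inv t' := by rw [ht', inv_inv]
    subst hp
    exact ⟨mk y0 (run_tail hpy), Or.inr ⟨y0, run_tail hpy, hpy, rfl, mk_eq.2 h1⟩,
      Or.inl ⟨y0, run_tail hpy, hqy, rfl, mk_eq.2 h2⟩⟩

theorem rel_du {s t s' t' : Fin 12} (hR : R s t s' t') {w w' : List (Fin 12)}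
    (h1 : run (s :: w) ≠ 0) (h2 : run (s' :: w') ≠ 0) (hE : E (inv t :: w) (inv t' :: w')) :
    mk (s :: w) h1 = mk (s' :: w') h2 := by
  have hne : inv t ≠ inv t' := (fc4a hR).1
  obtain ⟨m, k, y, hR1, h3, h4⟩ := E.inv_sq hne hE
  rw [mk_eq]
  have h5 : E (s :: w) (s :: m :: y) := E.cons s h3
  have h5r : run (s :: m :: y) ≠ 0 := by rw [← h5.run]; exact h1
  have h6 : E (s' :: w') (s' :: k :: y) := E.cons s' h4
  have h6r : run (s' :: k :: y) ≠ 0 := by rw [← h6.run]; exact h2
  rcases fc4b hR hR1 with hR2 | e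
  · exact E.trans h5r h5 (E.trans h6r (E.swap hR2.2 y) h6.symm)
  · rw [e] at h5r
    exact (not_run_inv h5r).elim

/-- The action of a letter. -/
noncomputable def act (t : Fin 12) (x : Om) : Om := Classical.choose (act_exists t x)

theorem act_spec (t : Fin 12) (x : Om) : Act t x (act t x) := Classical.choose_spec (act_exists t x)

theorem act_eq {t : Fin 12} {x y : Om} (h : Act t x y) : act t x = y :=
  act_unique (act_spec t x) h

theorem act_inv (t : Fin 12) (x : Om) : act (inv t) (act t x) = x := act_eq (act_spec t x).symm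

theorem act_inv' (t : Fin 12) (x : Om) : act t (act (inv t) x) = x := by
  have := act_inv (inv t) x
  rwa [inv_inv] at this

theorem act_comm {s t s' t' : Fin 12} (hR : R s t s' t') (x : Om) :
    act s (act t x) = act s' (act t' x) := by
  have key : ∀ {s t s' t' : Fin 12} (_ : R s t s' t') (x y z : Om), Act t x y → Act s y z →
      (∃ y', Act t' x y' ∧ Act s' y' z) ∨
      (∃ w h h1 h2, x = mk (inv t :: w) h ∧ y = mk w h1 ∧ z = mk (s :: w) h2) := by
    intro s t s' t' hR x y z h1 h2
    rcases h1 with ⟨w, hw, hw', rfl, rfl⟩ | ⟨w, hw, hw', rfl, rfl⟩ <;>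
      rcases h2 with ⟨v, hv, hv', e, rfl⟩ | ⟨v, hv, hv', rfl, e⟩
    · left
      rw [mk_eq] at e
      have h3 : run (s :: t :: w) ≠ 0 := by
        rw [run_cons, e.run, ← run_cons]
        exact hv'
      have h4 : mk (s :: v) hv' = mk (s :: t :: w) h3 := mk_eq.2 (E.cons s e.symm)
      rw [h4]
      exact rel_uu hR hw h3
    · left
      exact rel_ud hR hw hv hw' (mk_eq.1 e)
    · right
      rw [mk_eq] at e
      have h3 : run (s :: w) ≠ 0 := by
        rw [run_cons, e.run, ← run_cons]
        exact hv'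
      exact ⟨w, hw', hw, h3, rfl, rfl, mk_eq.2 (E.cons s e.symm)⟩
    · left
      rw [mk_eq] at e
      have h3 : run (inv t :: inv s :: v) ≠ 0 := by
        rw [run_cons, ← e.run, ← run_cons]
        exact hw'
      have h4 : mk (inv t :: w) hw' = mk (inv t :: inv s :: v) h3 := mk_eq.2 (E.cons _ e)
      rw [h4]
      exact rel_dd hR hv h3
  rcases key hR x _ _ (act_spec t x) (act_spec s _) with ⟨y', h1, h2⟩ | ⟨w, _, h1, h2, e1, e2, e3⟩
  · rw [act_eq h1, act_eq h2]
  · rcases key (R_symm hR) x _ _ (act_spec t' x) (act_spec s' _) with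
      ⟨y', g1, g2⟩ | ⟨w', g, g1, g2, f1, f2, f3⟩
    · rw [act_eq g1, act_eq g2]
    · rw [e3, f3]
      exact rel_du hR h2 g2 (mk_eq.1 (e1.symm.trans f1))

/-- The permutation of a letter. -/
noncomputable def perm (t : Fin 12) : Equiv.Perm Om where
  toFun := act t
  invFun := act (inv t)
  left_inv := act_inv t
  right_inv := act_inv' t

theorem perm_apply (t : Fin 12) (x : Om) : perm t x = act t x := rfl

theorem perm_comm {s t s' t' : Fin 12} (hR : R s t s' t') : perm s * perm t = perm s' * perm t' := by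
  ext x
  exact act_comm hR x

theorem perm_inv (t : Fin 12) : perm (inv t) = (perm t)⁻¹ := by
  rw [eq_inv_iff_mul_eq_one]
  ext x
  exact act_inv t x

/-- The length on `Om`. -/
def lenO : Om → ℕ := Quotient.lift (fun x : Wd => x.1.length) (fun _ _ h => E.len h)

/-- The state on `Om`. -/
def stO : Om → Fin 38 := Quotient.lift (fun x : Wd => run x.1) (fun _ _ h => E.run h)

theorem lenO_mk (w : List (Fin 12)) (h : run w ≠ 0) : lenO (mk w h) = w.length := rfl

theorem stO_mk (w : List (Fin 12)) (h : run w ≠ 0) : stO (mk w h) = run w := rfl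

theorem stO_ne (x : Om) : stO x ≠ 0 := by
  obtain ⟨w, h, rfl⟩ := mk_surj x
  exact h

theorem act_up {t : Fin 12} {x : Om} (h : step (stO x) t ≠ 0) :
    lenO (act t x) = lenO x + 1 ∧ stO (act t x) = step (stO x) t := by
  obtain ⟨w, hw, rfl⟩ := mk_surj x
  rw [act_eq (Or.inl ⟨w, hw, h, rfl, rfl⟩ : Act t (mk w hw) (mk (t :: w) h))]
  exact ⟨rfl, rfl⟩

theorem act_down {t : Fin 12} {x : Om} (h : step (stO x) t = 0) :
    lenO (act t x) + 1 = lenO x ∧ step (stO (act t x)) (inv t) = stO x := by
  obtain ⟨w, hw, rfl⟩ := mk_surj x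
  obtain ⟨w', hw'⟩ := exists_down w hw t h
  have h1 : run (inv t :: w') ≠ 0 := by rw [← hw'.run]; exact hw
  rw [act_eq (Or.inr ⟨w', run_tail h1, h1, rfl, mk_eq.2 hw'⟩ :
    Act t (mk w hw) (mk w' (run_tail h1)))]
  refine ⟨?_, ?_⟩
  · rw [lenO_mk, lenO_mk, hw'.len]
    rfl
  · rw [stO_mk, stO_mk, hw'.run]
    rfl

end Pool.Agent.Helper462
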