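import Mathlib
import Pool.Agent.Helper462_Helly.Words

/-!
The Artin group of type A tilde two, its action on accepted words, and the word length.
-/

set_option autoImplicit false
set_option maxRecDepth 100000

namespace Pool.Agent.Helper462

/-- The defining relations. -/
abbrev rels : Set (FreeGroup (Fin 3)) :=
  {r : FreeGroup (Fin 3) | ∃ i j : Fin 3, i ≠ j ∧
              r = FreeGroup.of i * FreeGroup.of j * FreeGroup.of i *
                (FreeGroup.of j * FreeGroup.of i * FreeGroup.of j)⁻¹}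

/-- The Artin group. -/
abbrev A := PresentedGroup rels

/-- The generators. -/
def gen (i : Fin 3) : A := PresentedGroup.of i

theorem braid (i j : Fin 3) (h : i ≠ j) : gen i * gen j * gen i = gen j * gen i * gen j := by
  have h1 : FreeGroup.of i * FreeGroup.of j * FreeGroup.of i *
                (FreeGroup.of j * FreeGroup.of i * FreeGroup.of j)⁻¹ ∈ rels := ⟨i, j, h, rfl⟩
  have h2 := PresentedGroup.one_of_mem h1
  rw [map_mul, map_inv, mul_inv_eq_one] at h2
  simp only [map_mul] at h2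
  exact h2

/-- The twelve letters as elements of the group. -/
def e : Fin 12 → A :=
  ![gen 0, gen 1, gen 2, gen 0 * gen 1 * gen 0, gen 1 * gen 2 * gen 1, gen 2 * gen 0 * gen 2,
    (gen 0)⁻¹, (gen 1)⁻¹, (gen 2)⁻¹, (gen 0 * gen 1 * gen 0)⁻¹, (gen 1 * gen 2 * gen 1)⁻¹,
    (gen 2 * gen 0 * gen 2)⁻¹]

theorem e_inv (t : Fin 12) : e (inv t) = (e t)⁻¹ := by
  fin_cases t
  iterate 6 exact rfl
  iterate 6 exact (_root_.inv_inv _).symm

section
variable {G : Type*} [Group G] {x y : G}

theorem L1 : (x * y * x) * x⁻¹ = x * y := by group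
theorem L2 (h : x * y * x = y * x * y) : y⁻¹ * (x * y * x) = x * y := by rw [h]; group
theorem L3 (h : x * y * x = y * x * y) : (x * y * x) * y⁻¹ = y * x := by rw [h]; group
theorem L4 : x⁻¹ * (x * y * x) = y * x := by group
theorem L5 : x * (x * y * x)⁻¹ = y⁻¹ * x⁻¹ := by group
theorem L6 (h : x * y * x = y * x * y) : (x * y * x)⁻¹ * y = y⁻¹ * x⁻¹ := by rw [h]; group
theorem L7 (h : x * y * x = y * x * y) : y * (x * y * x)⁻¹ = x⁻¹ * y⁻¹ := by rw [h]; group
theorem L8 : (x * y * x)⁻¹ * x = x⁻¹ * y⁻¹ := by group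
theorem L9 (h : x * y * x = y * x * y) : x * (x * y * x) = (x * y * x) * y := by
  conv_lhs => rw [h]
  group
theorem L10 (h : x * y * x = y * x * y) : y * (x * y * x) = (x * y * x) * x := by
  conv_rhs => rw [h]
  group
theorem L11 (h : x * y * x = y * x * y) : (x * y * x)⁻¹ * x⁻¹ = y⁻¹ * (x * y * x)⁻¹ := by
  rw [← mul_inv_rev, ← mul_inv_rev, L9 h]
theorem L12 (h : x * y * x = y * x * y) : (x * y * x)⁻¹ * y⁻¹ = x⁻¹ * (x * y * x)⁻¹ := by
  rw [← mul_inv_rev, ← mul_inv_rev, L10 h]

end

/-- Generating coincidences. -/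
def nt : List (Fin 12 × Fin 12 × Fin 12 × Fin 12) :=
  [(3, 6, 0, 1), (7, 3, 0, 1), (3, 7, 1, 0), (6, 3, 1, 0), (0, 9, 7, 6), (9, 1, 7, 6), (1, 9,
   6, 7), (9, 0, 6, 7), (0, 3, 3, 1), (1, 3, 3, 0), (9, 6, 7, 9), (9, 7, 6, 9), (4, 7, 1, 2),
   (8, 4, 1, 2), (4, 8, 2, 1), (7, 4, 2, 1), (1, 10, 8, 7), (10, 2, 8, 7), (2, 10, 7, 8),
   (10, 1, 7, 8), (1, 4, 4, 2), (2, 4, 4, 1), (10, 7, 8, 10), (10, 8, 7, 10), (5, 8, 2, 0),
   (6, 5, 2, 0), (5, 6, 0, 2), (8, 5, 0, 2), (2, 11, 6, 8), (11, 0, 6, 8), (0, 11, 8, 6),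
   (11, 2, 8, 6), (2, 5, 5, 0), (0, 5, 5, 2), (11, 8, 6, 11), (11, 6, 8, 11)]

/-- A coincidence follows from generating ones. -/
def genB (t p s q : Fin 12) : Bool := decide ((t, p, s, q) ∈ nt ∨ (s, q, t, p) ∈ nt ∨
    ∃ x ∈ nt, x.1 = t ∧ x.2.1 = p ∧ (s, q, x.2.2.1, x.2.2.2) ∈ nt)

theorem nt_gen' : ∀ t p s q, R t p s q → genB t p s q = true := by
  decide +kernel

theorem nt_gen (t p s q : Fin 12) (h : R t p s q) : (t, p, s, q) ∈ nt ∨ (s, q, t, p) ∈ nt ∨
    ∃ x ∈ nt, x.1 = t ∧ x.2.1 = p ∧ (s, q, x.2.2.1, x.2.2.2) ∈ nt :=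
  of_decide_eq_true (nt_gen' t p s q h)

theorem nt_rel : ∀ x ∈ nt, e x.1 * e x.2.1 = e x.2.2.1 * e x.2.2.2 := by
  have h01 := braid 0 1 (by decide)
  have h12 := braid 1 2 (by decide)
  have h20 := braid 2 0 (by decide)
  intro x hx
  simp only [nt, List.mem_cons, List.not_mem_nil, or_false] at hx
  rcases hx with rfl | rfl | rfl | rfl | rfl | rfl | rfl | rfl | rfl | rfl | rfl | rfl | rfl | rfl | rfl |
    rfl | rfl | rfl | rfl | rfl | rfl | rfl | rfl | rfl | rfl | rfl | rfl | rfl | rfl | rfl |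
    rfl | rfl | rfl | rfl | rfl | rfl
  exacts [L1, L2 h01, L3 h01, L4, L5, L6 h01, L7 h01, L8, L9 h01, L10 h01, L11 h01, L12 h01,
    L1, L2 h12, L3 h12, L4, L5, L6 h12, L7 h12, L8, L9 h12, L10 h12, L11 h12, L12 h12,
    L1, L2 h20, L3 h20, L4, L5, L6 h20, L7 h20, L8, L9 h20, L10 h20, L11 h20, L12 h20]

theorem e_rel {t p s q : Fin 12} (h : R t p s q) : e t * e p = e s * e q := by
  rcases nt_gen t p s q h with h1 | h1 | ⟨x, h1, rfl, rfl, h2⟩
  · exact nt_rel _ h1
  · exact (nt_rel _ h1).symm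
  · exact (nt_rel _ h1).trans (nt_rel _ h2).symm

theorem perm_braid {x y X : Fin 12} (h1 : R x y X (inv x)) (h2 : R y x X (inv y)) :
    perm x * perm y * perm x = perm X ∧ perm x * perm y * perm x = perm y * perm x * perm y := by
  have e1 : perm x * perm y * perm x = perm X := by
    rw [perm_comm h1, perm_inv, inv_mul_cancel_right]
  have e2 : perm y * perm x * perm y = perm X := by
    rw [perm_comm h2, perm_inv, inv_mul_cancel_right]
  exact ⟨e1, e1.trans e2.symm⟩

/-- The letter of a generator. -/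
def gl : Fin 3 → Fin 12 := ![0, 1, 2]

theorem perm_gl (i j : Fin 3) (h : i ≠ j) : perm (gl i) * perm (gl j) * perm (gl i) =
    perm (gl j) * perm (gl i) * perm (gl j) := by
  have h01 := (perm_braid (x := 0) (y := 1) (X := 3) (by decide +kernel) (by decide +kernel)).2
  have h12 := (perm_braid (x := 1) (y := 2) (X := 4) (by decide +kernel) (by decide +kernel)).2
  have h20 := (perm_braid (x := 2) (y := 0) (X := 5) (by decide +kernel) (by decide +kernel)).2
  fin_cases i <;> fin_cases j
  · exact absurd rfl h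
  · exact h01
  · exact h20.symm
  · exact h01.symm
  · exact absurd rfl h
  · exact h12
  · exact h20
  · exact h12.symm
  · exact absurd rfl h

theorem lift_rels : ∀ r ∈ rels, FreeGroup.lift (fun i : Fin 3 => perm (gl i)) r = 1 := by
  rintro r ⟨i, j, hij, rfl⟩
  rw [map_mul, map_inv, mul_inv_eq_one]
  simp only [map_mul, FreeGroup.lift_apply_of]
  exact perm_gl i j hij

/-- The action of the group on accepted words. -/
noncomputable def phi : A →* Equiv.Perm Om := PresentedGroup.toGroup lift_rels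

theorem phi_gen (i : Fin 3) : phi (gen i) = perm (gl i) := PresentedGroup.toGroup.of lift_rels

theorem phi_e (t : Fin 12) : phi (e t) = perm t := by
  have h01 := (perm_braid (x := 0) (y := 1) (X := 3) (by decide +kernel) (by decide +kernel)).1
  have h12 := (perm_braid (x := 1) (y := 2) (X := 4) (by decide +kernel) (by decide +kernel)).1
  have h20 := (perm_braid (x := 2) (y := 0) (X := 5) (by decide +kernel) (by decide +kernel)).1
  have k0 : phi (e 0) = perm 0 := phi_gen 0
  have k1 : phi (e 1) = perm 1 := phi_gen 1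
  have k2 : phi (e 2) = perm 2 := phi_gen 2
  have k3 : phi (e 3) = perm 3 := by
    rw [← h01, show e 3 = e 0 * e 1 * e 0 from rfl, map_mul, map_mul, k0, k1]
  have k4 : phi (e 4) = perm 4 := by
    rw [← h12, show e 4 = e 1 * e 2 * e 1 from rfl, map_mul, map_mul, k1, k2]
  have k5 : phi (e 5) = perm 5 := by
    rw [← h20, show e 5 = e 2 * e 0 * e 2 from rfl, map_mul, map_mul, k0, k2]
  have kinv : ∀ t, phi (e t) = perm t → phi (e (inv t)) = perm (inv t) := by
    intro t ht
    rw [e_inv, map_inv, ht, perm_inv]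
  fin_cases t
  · exact k0
  · exact k1
  · exact k2
  · exact k3
  · exact k4
  · exact k5
  · exact kinv 0 k0
  · exact kinv 1 k1
  · exact kinv 2 k2
  · exact kinv 3 k3
  · exact kinv 4 k4
  · exact kinv 5 k5

theorem E.prod {u v : List (Fin 12)} (h : E u v) : (u.map e).prod = (v.map e).prod := by
  induction h with
  | nil => rfl
  | cons t _ ih => simp [ih]
  | sq hR h1 h2 ih1 ih2 =>
    simp only [List.map_cons, List.prod_cons] at ih1 ih2 ⊢
    rw [ih1, ih2, ← mul_assoc, e_rel hR, mul_assoc]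

/-- Evaluation of accepted words in the group. -/
def ev : Om → A := Quotient.lift (fun x : Wd => (x.1.map e).prod) (fun _ _ h => E.prod h)

theorem ev_mk (w : List (Fin 12)) (h : run w ≠ 0) : ev (mk w h) = (w.map e).prod := rfl

theorem ev_act (t : Fin 12) (x : Om) : ev (act t x) = e t * ev x := by
  rcases act_spec t x with ⟨w, h, h', h1, h2⟩ | ⟨w, h, h', h1, h2⟩
  · rw [h2, h1, ev_mk, ev_mk, List.map_cons, List.prod_cons]
  · rw [h1]
    conv_rhs => rw [h2]
    rw [ev_mk, ev_mk, List.map_cons, List.prod_cons, e_inv, mul_inv_cancel_left]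

theorem ev_phi (g : A) : ∀ x, ev (phi g x) = g * ev x := by
  have hg : g ∈ Subgroup.closure (Set.range (PresentedGroup.of (rels := rels))) := by
    rw [PresentedGroup.closure_range_of]
    trivial
  induction hg using Subgroup.closure_induction with
  | mem x hx =>
    obtain ⟨i, rfl⟩ := hx
    intro x
    have h1 : phi (PresentedGroup.of i) = perm (gl i) := phi_gen i
    rw [h1, perm_apply, ev_act]
    congr 1
    fin_cases i <;> rfl
  | one => intro x; simp
  | mul g h _ _ ihg ihh => intro x; rw [map_mul, Equiv.Perm.mul_apply, ihg, ihh, mul_assoc]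
  | inv g _ ih =>
    intro x
    have h1 := ih ((phi g)⁻¹ x)
    rw [show phi g ((phi g)⁻¹ x) = x from (phi g).apply_symm_apply x] at h1
    rw [map_inv, h1, inv_mul_cancel_left]

/-- The normal form of an element. -/
noncomputable def N (g : A) : Om := phi g (mk [] (by decide))

theorem ev_N (g : A) : ev (N g) = g := by
  rw [N, ev_phi, ev_mk]
  simp

theorem N_mul (t : Fin 12) (g : A) : N (e t * g) = act t (N g) := by
  rw [N, map_mul, phi_e, Equiv.Perm.mul_apply, perm_apply]
  rfl

/-- The word length with respect to the twelve letters. -/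
noncomputable def ell (g : A) : ℕ := lenO (N g)

/-- The state of an element. -/
noncomputable def st (g : A) : Fin 38 := stO (N g)

theorem st_ne (g : A) : st g ≠ 0 := stO_ne _

theorem ell_one : ell 1 = 0 := by
  rw [ell, N, map_one]
  rfl

theorem ell_eq_zero {g : A} (h : ell g = 0) : g = 1 := by
  obtain ⟨w, hw, h1⟩ := mk_surj (N g)
  rw [ell, h1, lenO_mk] at h
  have h2 : w = [] := List.eq_nil_of_length_eq_zero h
  subst h2
  rw [← ev_N g, h1]
  rfl

theorem ell_up {g : A} {t : Fin 12} (h : step (st g) t ≠ 0) :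
    ell (e t * g) = ell g + 1 ∧ st (e t * g) = step (st g) t := by
  have := act_up h
  rw [← N_mul] at this
  exact this

theorem ell_down {g : A} {t : Fin 12} (h : step (st g) t = 0) :
    ell (e t * g) + 1 = ell g := by
  have := act_down h
  rw [← N_mul] at this
  exact this.1

theorem exists_desc {g : A} (h : ell g ≠ 0) : ∃ t, step (st g) t = 0 := by
  obtain ⟨w, hw, h1⟩ := mk_surj (N g)
  rw [ell, h1, lenO_mk] at h
  cases w with
  | nil => exact absurd rfl h
  | cons s u =>
    refine ⟨inv s, ?_⟩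
    rw [st, h1, stO_mk, run_cons]
    exact step_inv _ _

theorem desc_iff {g : A} {t : Fin 12} : step (st g) t = 0 ↔ ell (e t * g) < ell g := by
  constructor
  · intro h
    have := ell_down h
    omega
  · intro h
    by_contra h'
    have := (ell_up h').1
    omega

theorem ell_step (t : Fin 12) (g : A) : ell (e t * g) = ell g + 1 ∨ ell (e t * g) + 1 = ell g := by
  by_cases h : step (st g) t = 0
  · exact Or.inr (ell_down h)
  · exact Or.inl (ell_up h).1

/-- The quadrangle property. -/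
theorem quad {g : A} {t s : Fin 12} (ht : ell (e t * g) < ell g) (hs : ell (e s * g) < ell g)
    (hts : t ≠ s) : ∃ p q, ell (e p * (e t * g)) < ell (e t * g) ∧ e p * e t = e q * e s := by
  have h1 := desc_iff.2 ht
  have h2 := desc_iff.2 hs
  have h3 : ¬ step (st (e t * g)) (inv t) = 0 := by
    rw [desc_iff, e_inv, inv_mul_cancel_left]
    omega
  have h4 : st g = step (st (e t * g)) (inv t) := by
    have := (ell_up h3).2
    rwa [e_inv, inv_mul_cancel_left] at this
  rw [h4] at h2
  obtain ⟨p, q, h5, h6⟩ := fc2 h3 h2 (by rw [inv_inv]; exact hts.symm)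
  refine ⟨p, inv q, desc_iff.1 h5, ?_⟩
  have h7 := e_rel h6
  rw [e_inv, e_inv, e_inv] at h7
  rw [e_inv]
  have h8 : (e p * e t)⁻¹ = ((e q)⁻¹ * e s)⁻¹ := by
    rw [mul_inv_rev, mul_inv_rev, _root_.inv_inv]
    exact h7
  exact inv_injective h8

/-- Every element has length equal to the length of a word for it. -/
theorem exists_word (g : A) : ∃ w : List (Fin 12), w.length = ell g ∧ (w.map e).prod = g := by
  obtain ⟨w, hw, h1⟩ := mk_surj (N g)
  refine ⟨w, ?_, ?_⟩
  · rw [ell, h1, lenO_mk]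
  · rw [← ev_mk w hw, ← h1, ev_N]

theorem ball_finite (n : ℕ) : {g : A | ell g ≤ n}.Finite := by
  have h1 : {w : List (Fin 12) | w.length ≤ n}.Finite := List.finite_length_le (Fin 12) n
  refine (h1.image (fun w => (w.map e).prod)).subset ?_
  intro g hg
  obtain ⟨w, h2, h3⟩ := exists_word g
  refine ⟨w, ?_, h3⟩
  change w.length ≤ n
  rw [h2]
  exact hg

end Pool.Agent.Helper462
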