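import Mathlib
import Pool.Agent.Helper462_Helly.Group

/-!
Geometry of the word length: geodesic concatenation, common descents, and the Helly property
of half balls.
-/

set_option autoImplicit false

namespace Pool.Agent.Helper462

theorem ell_step_le (t : Fin 12) (g : A) : ell (e t * g) ≤ ell g + 1 := by
  rcases ell_step t g with h | h <;> omega

theorem exists_letter {g : A} (h : ell g ≠ 0) : ∃ t, ell (e t * g) + 1 = ell g := by
  obtain ⟨t, ht⟩ := exists_desc h
  exact ⟨t, ell_down ht⟩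

theorem eq_inv_mul (t : Fin 12) (g : A) : g = e (inv t) * (e t * g) := by
  rw [e_inv, inv_mul_cancel_left]

theorem ell_mul_aux (n : ℕ) : ∀ g h : A, ell g = n →
    ell (g * h) ≤ n + ell h ∧ Even (ell (g * h) + n + ell h) := by
  induction n with
  | zero =>
    intro g h hg
    rw [ell_eq_zero hg, one_mul]
    exact ⟨by omega, ⟨ell h, by omega⟩⟩
  | succ n ih =>
    intro g h hg
    obtain ⟨t, ht⟩ := exists_letter (g := g) (by omega)
    obtain ⟨h1, h2⟩ := ih (e t * g) h (by omega)
    have h3 : g * h = e (inv t) * (e t * g * h) := by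
      rw [mul_assoc]
      exact eq_inv_mul t (g * h)
    rw [h3]
    rcases ell_step (inv t) (e t * g * h) with h4 | h4
    · refine ⟨by omega, ?_⟩
      obtain ⟨c, hc⟩ := h2
      exact ⟨c + 1, by omega⟩
    · refine ⟨by omega, ?_⟩
      obtain ⟨c, hc⟩ := h2
      exact ⟨c, by omega⟩

theorem ell_mul (g h : A) : ell (g * h) ≤ ell g + ell h := (ell_mul_aux _ g h rfl).1

theorem ell_par (g h : A) : Even (ell (g * h) + ell g + ell h) := (ell_mul_aux _ g h rfl).2

theorem ell_e (t : Fin 12) : ell (e t) = 1 := by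
  have h1 : st 1 = 1 := by
    rw [st, N, map_one]
    rfl
  have h2 := ell_up (g := 1) (t := t) (by rw [h1]; exact fc0 t)
  rw [mul_one, ell_one] at h2
  exact h2.1

theorem ell_inv_le (n : ℕ) : ∀ g : A, ell g = n → ell g⁻¹ ≤ n := by
  induction n with
  | zero =>
    intro g hg
    rw [ell_eq_zero hg, inv_one, ell_one]
  | succ n ih =>
    intro g hg
    obtain ⟨t, ht⟩ := exists_letter (g := g) (by omega)
    have h1 := ih (e t * g) (by omega)
    have h2 : g⁻¹ = (e t * g)⁻¹ * e t := by group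
    rw [h2]
    have h3 := ell_mul (e t * g)⁻¹ (e t)
    rw [ell_e] at h3
    omega

theorem ell_inv (g : A) : ell g⁻¹ = ell g := by
  have h1 := ell_inv_le _ g rfl
  have h2 := ell_inv_le _ g⁻¹ rfl
  rw [_root_.inv_inv] at h2
  omega

/-- Without a common descent the concatenation is geodesic. -/
theorem geod (n : ℕ) : ∀ w w' : A, ell w = n →
    (∀ t, ¬ (ell (e t * w) < ell w ∧ ell (e t * w') < ell w')) →
    ell (w⁻¹ * w') = ell w + ell w' := by
  induction n with
  | zero =>
    intro w w' hw _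
    rw [hw, ell_eq_zero hw, inv_one, one_mul, zero_add]
  | succ n ih =>
    intro w w' hw h
    obtain ⟨t, ht⟩ := exists_letter (g := w) (by omega)
    have h1 : ell (e t * w') = ell w' + 1 := by
      rcases ell_step t w' with h1 | h1
      · exact h1
      · exact absurd ⟨by omega, by omega⟩ (h t)
    have h2 : w⁻¹ * w' = (e t * w)⁻¹ * (e t * w') := by group
    rw [h2, ih (e t * w) (e t * w') (by omega) ?_]
    · omega
    · rintro r ⟨h3, h4⟩
      -- `r` and the inverse of `t` are descents of `t w'`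
      have h5 : ell (e (inv t) * (e t * w')) < ell (e t * w') := by
        rw [← eq_inv_mul]
        omega
      have h6 : inv t ≠ r := by
        intro h7
        rw [← h7, ← eq_inv_mul] at h3
        omega
      obtain ⟨p, q, h8, h9⟩ := quad h5 h4 h6
      rw [← eq_inv_mul] at h8
      apply h p
      refine ⟨?_, h8⟩
      have h10 : e p * w = e q * (e r * (e t * w)) := by
        rw [← mul_assoc (e q), ← h9, e_inv]
        group
      rw [h10]
      have h11 := ell_step_le q (e r * (e t * w))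
      omega

/-- A family of elements any two of which do not concatenate geodesically has a common descent. -/
theorem common_desc {I : Type} (f : I → A)
    (h : ∀ i j, ell ((f i)⁻¹ * f j) < ell (f i) + ell (f j)) :
    ∃ t, ∀ i, ell (e t * f i) < ell (f i) := by
  obtain ⟨t, ht⟩ := fc5 (fun i => st (f i)) (fun i j => by
    by_contra hc
    have h1 := geod _ (f i) (f j) rfl (fun t ht => hc ⟨t, desc_iff.2 ht.1, desc_iff.2 ht.2⟩)
    have h2 := h i j
    omega) (fun i => st_ne _)
  exact ⟨t, fun i => desc_iff.1 (ht i)⟩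

theorem hbh_aux {I : Type} (c : I → A) (r : I → ℕ)
    (hp : ∀ i j, ell ((c i)⁻¹ * c j) ≤ r i + r j) (k : ℕ) :
    ∀ u : A, (∀ i, ell (u⁻¹ * c i) ≤ r i + k ∧ Even (ell (u⁻¹ * c i) + r i + k)) →
    ∃ u' : A, ∀ i, ell (u'⁻¹ * c i) ≤ r i ∧ Even (ell (u'⁻¹ * c i) + r i) := by
  induction k with
  | zero =>
    intro u hu
    exact ⟨u, fun i => by simpa using hu i⟩
  | succ k ih =>
    intro u hu
    obtain ⟨t, ht⟩ := common_desc
      (fun i : {i : I // ell (u⁻¹ * c i) = r i + (k + 1)} => u⁻¹ * c i.1) (by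
        rintro ⟨i, hi⟩ ⟨j, hj⟩
        have h1 : (u⁻¹ * c i)⁻¹ * (u⁻¹ * c j) = (c i)⁻¹ * c j := by group
        change ell ((u⁻¹ * c i)⁻¹ * (u⁻¹ * c j)) < ell (u⁻¹ * c i) + ell (u⁻¹ * c j)
        rw [h1, hi, hj]
        have := hp i j
        omega)
    apply ih (u * (e t)⁻¹)
    intro i
    have h1 : (u * (e t)⁻¹)⁻¹ * c i = e t * (u⁻¹ * c i) := by group
    rw [h1]
    obtain ⟨h2, m, hm⟩ := hu i
    have h3 := ell_step t (u⁻¹ * c i)
    by_cases h4 : ell (u⁻¹ * c i) = r i + (k + 1)
    · have h5 : ell (e t * (u⁻¹ * c i)) < ell (u⁻¹ * c i) := ht ⟨i, h4⟩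
      refine ⟨by omega, m - 1, by omega⟩
    · rcases h3 with h3 | h3
      · exact ⟨by omega, m, by omega⟩
      · exact ⟨by omega, m - 1, by omega⟩

/-- The Helly property of half balls. -/
theorem hbh {I : Type} (c : I → A) (r : I → ℕ)
    (hp : ∀ i j, ell ((c i)⁻¹ * c j) ≤ r i + r j ∧ Even (ell ((c i)⁻¹ * c j) + r i + r j)) :
    ∃ u : A, ∀ i, ell (u⁻¹ * c i) ≤ r i ∧ Even (ell (u⁻¹ * c i) + r i) := by
  by_cases hI : Nonempty I
  · obtain ⟨i0⟩ := hI
    refine hbh_aux c r (fun i j => (hp i j).1) (r i0) (c i0) ?_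
    intro i
    obtain ⟨h1, m, hm⟩ := hp i0 i
    exact ⟨by omega, m, by omega⟩
  · exact ⟨1, fun i => (hI ⟨i⟩).elim⟩

end Pool.Agent.Helper462
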