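import Mathlib
import Pool.Agent.Helper462_Helly.Geom

/-!
The graph on the directed edges of the Cayley graph, and its Helly property.
-/

set_option autoImplicit false

namespace Pool.Agent.Helper462

/-- Parity of a quotient. -/
theorem ell_par' (x y : A) : Even (ell (x⁻¹ * y) + ell x + ell y) := by
  have := ell_par x⁻¹ y
  rwa [ell_inv] at this

theorem ell_symm (x y : A) : ell (x⁻¹ * y) = ell (y⁻¹ * x) := by
  rw [← ell_inv (x⁻¹ * y)]
  congr 1
  group

theorem ell_tri (x y z : A) : ell (x⁻¹ * z) ≤ ell (x⁻¹ * y) + ell (y⁻¹ * z) := by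
  have := ell_mul (x⁻¹ * y) (y⁻¹ * z)
  have h : x⁻¹ * y * (y⁻¹ * z) = x⁻¹ * z := by group
  rwa [h] at this

theorem ell_left (g x y : A) : ell ((g * x)⁻¹ * (g * y)) = ell (x⁻¹ * y) := by
  congr 1
  group

/-- Directed edges of the Cayley graph. -/
abbrev V := {v : A × A // ell (v.1⁻¹ * v.2) = 1}

/-- The even endpoint. -/
noncomputable def Ev (v : V) : A := open Classical in if Even (ell v.1.1) then v.1.1 else v.1.2

/-- The odd endpoint. -/
noncomputable def Od (v : V) : A := open Classical in if Even (ell v.1.1) then v.1.2 else v.1.1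

theorem ends_even {v : V} (h : Even (ell v.1.1)) : Ev v = v.1.1 ∧ Od v = v.1.2 := by
  unfold Ev Od
  rw [if_pos h, if_pos h]
  exact ⟨rfl, rfl⟩

theorem ends_odd {v : V} (h : ¬ Even (ell v.1.1)) : Ev v = v.1.2 ∧ Od v = v.1.1 := by
  unfold Ev Od
  rw [if_neg h, if_neg h]
  exact ⟨rfl, rfl⟩

theorem par_iff (v : V) : Even (ell v.1.1) ↔ ¬ Even (ell v.1.2) := by
  have h1 := ell_par' v.1.1 v.1.2
  rw [v.2] at h1
  rw [Nat.even_iff] at h1
  rw [Nat.even_iff, Nat.even_iff]
  omega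

theorem Ev_even (v : V) : Even (ell (Ev v)) := by
  by_cases h : Even (ell v.1.1)
  · rw [(ends_even h).1]; exact h
  · rw [(ends_odd h).1]
    by_contra h'
    exact h ((par_iff v).2 h')

theorem Od_odd (v : V) : ¬ Even (ell (Od v)) := by
  by_cases h : Even (ell v.1.1)
  · rw [(ends_even h).2]; exact (par_iff v).1 h
  · rw [(ends_odd h).2]; exact h

theorem Ev_Od (v : V) : ell ((Ev v)⁻¹ * Od v) = 1 := by
  by_cases h : Even (ell v.1.1)
  · rw [(ends_even h).1, (ends_even h).2]; exact v.2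
  · rw [(ends_odd h).1, (ends_odd h).2, ell_symm]; exact v.2

/-- Closeness of two edges. -/
def near (r : ℕ) (v w : V) : Prop :=
  ell ((Ev v)⁻¹ * Ev w) ≤ 2 * r ∧ ell ((Od v)⁻¹ * Od w) ≤ 2 * r

theorem near_refl (r : ℕ) (v : V) : near r v v := by
  constructor <;> rw [inv_mul_cancel, ell_one] <;> omega

theorem near_symm {r : ℕ} {v w : V} (h : near r v w) : near r w v := by
  refine ⟨?_, ?_⟩
  · rw [ell_symm]; exact h.1
  · rw [ell_symm]; exact h.2

theorem near_trans {r s : ℕ} {u v w : V} (h1 : near r u v) (h2 : near s v w) :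
    near (r + s) u w := by
  have h3 := ell_tri (Ev u) (Ev v) (Ev w)
  have h4 := ell_tri (Od u) (Od v) (Od w)
  have h5 := h1.1
  have h6 := h1.2
  have h7 := h2.1
  have h8 := h2.2
  exact ⟨by omega, by omega⟩

theorem near_mono {r s : ℕ} {v w : V} (h : r ≤ s) (h1 : near r v w) : near s v w := by
  have h2 := h1.1
  have h3 := h1.2
  exact ⟨by omega, by omega⟩

theorem exists_near (v w : V) : ∃ r, near r v w :=
  ⟨ell ((Ev v)⁻¹ * Ev w) + ell ((Od v)⁻¹ * Od w), by omega, by omega⟩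

/-- The base edge. -/
noncomputable def v0 : V := ⟨(1, e 0), by
  change ell (1⁻¹ * e 0) = 1
  rw [inv_one, one_mul, ell_e]⟩

/-- The Helly property for the relation `near`. -/
theorem eh {I : Type} (v : I → V) (r : I → ℕ) (h : ∀ i j, near (r i + r j) (v i) (v j)) :
    ∃ w, ∀ i, near (r i) (v i) w := by
  by_cases hI : Nonempty I
  swap
  · exact ⟨v0, fun i => (hI ⟨i⟩).elim⟩
  obtain ⟨i0⟩ := hI
  obtain ⟨x, hx⟩ := hbh (fun i => Ev (v i)) (fun i => 2 * r i) (fun i j => by
    refine ⟨?_, ?_⟩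
    · have := (h i j).1
      change ell ((Ev (v i))⁻¹ * Ev (v j)) ≤ 2 * r i + 2 * r j
      omega
    · have h1 := ell_par' (Ev (v i)) (Ev (v j))
      have h2 := Ev_even (v i)
      have h3 := Ev_even (v j)
      rw [Nat.even_iff] at h1 h2 h3 ⊢
      omega)
  have hx' : ∀ i, ell (x⁻¹ * Ev (v i)) ≤ 2 * r i := fun i => (hx i).1
  have hxe : Even (ell x) := by
    have h1 : Even (ell (x⁻¹ * Ev (v i0)) + 2 * r i0) := (hx i0).2
    have h2 := ell_par' x (Ev (v i0))
    have h3 := Ev_even (v i0)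
    rw [Nat.even_iff] at h1 h2 h3 ⊢
    omega
  have hxo : ∀ i, ell (x⁻¹ * Od (v i)) ≤ 2 * r i + 1 ∧
      Even (ell (x⁻¹ * Od (v i)) + 1 + 2 * r i) := by
    intro i
    have h1 := ell_tri x (Ev (v i)) (Od (v i))
    rw [Ev_Od] at h1
    have h2 := hx' i
    refine ⟨by omega, ?_⟩
    have h3 := ell_par' x (Od (v i))
    have h4 := Od_odd (v i)
    rw [Nat.even_iff] at h3 h4 hxe ⊢
    omega
  obtain ⟨y, hy⟩ := hbh (fun o : Option I => o.elim x (fun i => Od (v i)))
      (fun o : Option I => o.elim 1 (fun i => 2 * r i)) (fun i j => by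
    rcases i with _ | i <;> rcases j with _ | j
    · change ell (x⁻¹ * x) ≤ 1 + 1 ∧ Even (ell (x⁻¹ * x) + 1 + 1)
      rw [inv_mul_cancel, ell_one]
      exact ⟨by omega, ⟨1, by omega⟩⟩
    · change ell (x⁻¹ * Od (v j)) ≤ 1 + 2 * r j ∧ Even (ell (x⁻¹ * Od (v j)) + 1 + 2 * r j)
      obtain ⟨h1, h2⟩ := hxo j
      exact ⟨by omega, h2⟩
    · change ell ((Od (v i))⁻¹ * x) ≤ 2 * r i + 1 ∧ Even (ell ((Od (v i))⁻¹ * x) + 2 * r i + 1)
      obtain ⟨h1, h2⟩ := hxo i
      rw [ell_symm]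
      refine ⟨h1, ?_⟩
      rw [Nat.even_iff] at h2 ⊢
      omega
    · change ell ((Od (v i))⁻¹ * Od (v j)) ≤ 2 * r i + 2 * r j ∧
        Even (ell ((Od (v i))⁻¹ * Od (v j)) + 2 * r i + 2 * r j)
      have h0 := (h i j).2
      refine ⟨by omega, ?_⟩
      have h1 := ell_par' (Od (v i)) (Od (v j))
      have h2 := Od_odd (v i)
      have h3 := Od_odd (v j)
      rw [Nat.even_iff] at h1 h2 h3 ⊢
      omega)
  have hy1 : ell (y⁻¹ * x) ≤ 1 ∧ Even (ell (y⁻¹ * x) + 1) := hy none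
  have hy2 : ∀ i, ell (y⁻¹ * Od (v i)) ≤ 2 * r i := fun i => (hy (some i)).1
  have hxy : ell (x⁻¹ * y) = 1 := by
    rw [ell_symm]
    obtain ⟨h1, h2⟩ := hy1
    rw [Nat.even_iff] at h2
    omega
  refine ⟨⟨(x, y), hxy⟩, fun i => ?_⟩
  obtain ⟨e1, e2⟩ := ends_even (v := ⟨(x, y), hxy⟩) hxe
  refine ⟨?_, ?_⟩
  · rw [e1, ell_symm]
    exact hx' i
  · rw [e2, ell_symm]
    exact hy2 i

/-- The graph. -/
def Gr : SimpleGraph V where
  Adj v w := v ≠ w ∧ near 1 v w
  symm := ⟨fun _ _ h => ⟨h.1.symm, near_symm h.2⟩⟩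
  loopless := ⟨fun _ h => h.1 rfl⟩

theorem near_walk {v w : V} (p : Gr.Walk v w) : near p.length v w := by
  induction p with
  | nil => exact near_refl _ _
  | cons h p ih =>
    rw [SimpleGraph.Walk.length_cons, add_comm]
    exact near_trans h.2 ih

theorem walk_of_near (r : ℕ) : ∀ v w : V, near (r + 1) v w → ∃ p : Gr.Walk v w, p.length ≤ r + 1 := by
  have base : ∀ v w : V, near 1 v w → ∃ p : Gr.Walk v w, p.length ≤ 1 := by
    intro v w h
    by_cases e : v = w
    · subst e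
      exact ⟨SimpleGraph.Walk.nil, by simp⟩
    · have h1 : Gr.Adj v w := ⟨e, h⟩
      exact ⟨h1.toWalk, by simp⟩
  induction r with
  | zero =>
    intro v w h
    exact base v w h
  | succ r ih =>
    intro v w h
    obtain ⟨m, hm⟩ := eh (fun b : Bool => if b then v else w) (fun b => if b then 1 else r + 1) (by
      intro i j
      rcases i <;> rcases j
      · exact near_refl _ _
      · exact near_symm (near_mono (by change r + 1 + 1 ≤ r + 1 + 1; omega) h)
      · exact near_mono (by change r + 1 + 1 ≤ 1 + (r + 1); omega) h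
      · exact near_refl _ _)
    have h1 : near 1 v m := hm true
    have h2 : near (r + 1) w m := hm false
    obtain ⟨p, hp⟩ := base v m h1
    obtain ⟨q, hq⟩ := ih m w (near_symm h2)
    refine ⟨p.append q, ?_⟩
    rw [SimpleGraph.Walk.length_append]
    omega

theorem gr_connected : Gr.Connected := by
  have : Nonempty V := ⟨v0⟩
  refine ⟨fun v w => ?_⟩
  obtain ⟨r, hr⟩ := exists_near v w
  obtain ⟨p, -⟩ := walk_of_near r v w (near_mono (by omega) hr)
  exact ⟨p⟩

theorem dist_le_iff (r : ℕ) (v w : V) : Gr.dist v w ≤ r + 1 ↔ near (r + 1) v w := by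
  constructor
  · intro h
    obtain ⟨p, hp⟩ := gr_connected.exists_walk_length_eq_dist v w
    exact near_mono (by omega) (near_walk p)
  · intro h
    obtain ⟨p, hp⟩ := walk_of_near r v w h
    exact (SimpleGraph.dist_le p).trans hp

theorem near_of_dist {r : ℕ} {v w : V} (h : Gr.dist v w ≤ r) : near r v w := by
  obtain ⟨p, hp⟩ := gr_connected.exists_walk_length_eq_dist v w
  exact near_mono (by omega) (near_walk p)

/-- The Helly property of the graph. -/
theorem gr_helly (S : Set (V × ℕ))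
    (h : ∀ p ∈ S, ∀ q ∈ S, ∃ x : V, Gr.dist p.1 x ≤ p.2 ∧ Gr.dist q.1 x ≤ q.2) :
    ∃ x : V, ∀ p ∈ S, Gr.dist p.1 x ≤ p.2 := by
  by_cases h0 : ∃ p ∈ S, p.2 = 0
  · obtain ⟨p, hp, hp0⟩ := h0
    refine ⟨p.1, fun q hq => ?_⟩
    obtain ⟨x, hx1, hx2⟩ := h p hp q hq
    rw [hp0] at hx1
    have h1 : p.1 = x := by
      have h2 : Gr.dist p.1 x = 0 := by omega
      exact (gr_connected.dist_eq_zero_iff).1 h2
    rw [h1]
    exact hx2
  · push Not at h0
    obtain ⟨w, hw⟩ := eh (fun p : S => p.1.1) (fun p : S => p.1.2) (by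
      rintro ⟨p, hp⟩ ⟨q, hq⟩
      obtain ⟨x, hx1, hx2⟩ := h p hp q hq
      exact near_trans (near_of_dist hx1) (near_symm (near_of_dist hx2)))
    refine ⟨w, fun p hp => ?_⟩
    have h1 : near p.2 p.1 w := hw ⟨p, hp⟩
    have h2 := h0 p hp
    obtain ⟨r, hr⟩ := Nat.exists_eq_succ_of_ne_zero h2
    rw [hr] at h1 ⊢
    exact (dist_le_iff r _ _).2 h1

theorem pair_finite (x : A) (n : ℕ) :
    {w : V | ell (x⁻¹ * w.1.1) ≤ n ∧ ell (x⁻¹ * w.1.2) ≤ n}.Finite := by
  have h1 : ((fun g => x * g) '' {g : A | ell g ≤ n}).Finite := (ball_finite n).image _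
  have h2 := (h1.prod h1).preimage (f := fun w : V => w.1) (Subtype.val_injective.injOn)
  refine h2.subset ?_
  rintro w ⟨hw1, hw2⟩
  refine ⟨⟨x⁻¹ * w.1.1, hw1, ?_⟩, ⟨x⁻¹ * w.1.2, hw2, ?_⟩⟩
  · simp
  · simp

theorem gr_finite (v : V) : (Gr.neighborSet v).Finite := by
  refine (pair_finite (Ev v) 3).subset ?_
  intro w hw
  have h1 : near 1 v w := hw.2
  have h2 := h1.1
  have h3 : ell ((Ev v)⁻¹ * Od w) ≤ 3 := by
    have := ell_tri (Ev v) (Ev w) (Od w)
    rw [Ev_Od] at this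
    omega
  by_cases h : Even (ell w.1.1)
  · rw [(ends_even h).1] at h2
    rw [(ends_even h).2] at h3
    exact ⟨by omega, h3⟩
  · rw [(ends_odd h).1] at h2
    rw [(ends_odd h).2] at h3
    exact ⟨h3, by omega⟩

/-- Left translation of edges. -/
def sm (g : A) (v : V) : V := ⟨(g * v.1.1, g * v.1.2), by
  change ell ((g * v.1.1)⁻¹ * (g * v.1.2)) = 1
  rw [ell_left]
  exact v.2⟩

theorem sm_one (v : V) : sm 1 v = v := by
  apply Subtype.ext
  apply Prod.ext
  · exact one_mul _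
  · exact one_mul _

theorem sm_mul (g h : A) (v : V) : sm (g * h) v = sm g (sm h v) := by
  apply Subtype.ext
  apply Prod.ext
  · exact mul_assoc _ _ _
  · exact mul_assoc _ _ _

theorem sm_ends (g : A) (v : V) : (Even (ell g) → Ev (sm g v) = g * Ev v ∧ Od (sm g v) = g * Od v) ∧
    (¬ Even (ell g) → Ev (sm g v) = g * Od v ∧ Od (sm g v) = g * Ev v) := by
  have h1 := ell_par g v.1.1
  have h2 : (sm g v).1.1 = g * v.1.1 := rfl
  have h3 : (sm g v).1.2 = g * v.1.2 := rfl
  refine ⟨fun hg => ?_, fun hg => ?_⟩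
  · by_cases h : Even (ell v.1.1)
    · have h4 : Even (ell (sm g v).1.1) := by
        rw [h2]
        rw [Nat.even_iff] at *
        omega
      rw [(ends_even h4).1, (ends_even h4).2, (ends_even h).1, (ends_even h).2, h2, h3]
      exact ⟨rfl, rfl⟩
    · have h4 : ¬ Even (ell (sm g v).1.1) := by
        rw [h2]
        rw [Nat.even_iff] at *
        omega
      rw [(ends_odd h4).1, (ends_odd h4).2, (ends_odd h).1, (ends_odd h).2, h2, h3]
      exact ⟨rfl, rfl⟩
  · by_cases h : Even (ell v.1.1)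
    · have h4 : ¬ Even (ell (sm g v).1.1) := by
        rw [h2]
        rw [Nat.even_iff] at *
        omega
      rw [(ends_odd h4).1, (ends_odd h4).2, (ends_even h).1, (ends_even h).2, h2, h3]
      exact ⟨rfl, rfl⟩
    · have h4 : Even (ell (sm g v).1.1) := by
        rw [h2]
        rw [Nat.even_iff] at *
        omega
      rw [(ends_even h4).1, (ends_even h4).2, (ends_odd h).1, (ends_odd h).2, h2, h3]
      exact ⟨rfl, rfl⟩

theorem near_sm (g : A) {r : ℕ} {v w : V} (h : near r v w) : near r (sm g v) (sm g w) := by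
  by_cases hg : Even (ell g)
  · obtain ⟨h1, h2⟩ := (sm_ends g v).1 hg
    obtain ⟨h3, h4⟩ := (sm_ends g w).1 hg
    refine ⟨?_, ?_⟩
    · rw [h1, h3, ell_left]; exact h.1
    · rw [h2, h4, ell_left]; exact h.2
  · obtain ⟨h1, h2⟩ := (sm_ends g v).2 hg
    obtain ⟨h3, h4⟩ := (sm_ends g w).2 hg
    refine ⟨?_, ?_⟩
    · rw [h1, h3, ell_left]; exact h.2
    · rw [h2, h4, ell_left]; exact h.1

theorem sm_inv (g : A) (v : V) : sm g⁻¹ (sm g v) = v := by
  rw [← sm_mul, inv_mul_cancel, sm_one]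

theorem sm_inv' (g : A) (v : V) : sm g (sm g⁻¹ v) = v := by
  rw [← sm_mul, mul_inv_cancel, sm_one]

/-- Left translation as an automorphism. -/
def smIso (g : A) : Gr ≃g Gr where
  toFun := sm g
  invFun := sm g⁻¹
  left_inv := sm_inv g
  right_inv := sm_inv' g
  map_rel_iff' := by
    intro v w
    constructor
    · rintro ⟨h1, h2⟩
      refine ⟨fun h => h1 (by rw [h]), ?_⟩
      have := near_sm g⁻¹ h2
      change near 1 (sm g⁻¹ (sm g v)) (sm g⁻¹ (sm g w)) at this
      rwa [sm_inv, sm_inv] at this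
    · rintro ⟨h1, h2⟩
      refine ⟨fun h => h1 ?_, near_sm g h2⟩
      have := congrArg (sm g⁻¹) h
      change sm g⁻¹ (sm g v) = sm g⁻¹ (sm g w) at this
      rwa [sm_inv, sm_inv] at this

/-- The action of the Artin group on the graph. -/
def rho : A →* (Gr ≃g Gr) where
  toFun := smIso
  map_one' := by
    ext v
    · exact congrArg (fun w : V => w.1.1) (sm_one v)
    · exact congrArg (fun w : V => w.1.2) (sm_one v)
  map_mul' := by
    intro g h
    ext v
    · exact congrArg (fun w : V => w.1.1) (sm_mul g h v)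
    · exact congrArg (fun w : V => w.1.2) (sm_mul g h v)

theorem rho_apply (g : A) (v : V) : rho g v = sm g v := rfl

theorem gr_stab (v : V) : {g | rho g v = v}.Finite := by
  refine (Set.finite_singleton (1 : A)).subset ?_
  intro g hg
  have h1 : sm g v = v := hg
  have h2 : g * v.1.1 = v.1.1 := congrArg (fun w : V => w.1.1) h1
  exact mul_eq_right.1 h2

theorem gr_orbits : ∃ F : Finset V, ∀ v : V, ∃ g, ∃ w ∈ F, rho g w = v := by
  refine ⟨(pair_finite 1 1).toFinset, fun v => ?_⟩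
  refine ⟨v.1.1, sm v.1.1⁻¹ v, ?_, sm_inv' _ _⟩
  rw [Set.Finite.mem_toFinset]
  refine ⟨?_, ?_⟩
  · change ell (1⁻¹ * (v.1.1⁻¹ * v.1.1)) ≤ 1
    rw [inv_mul_cancel, inv_one, one_mul, ell_one]
    omega
  · change ell (1⁻¹ * (v.1.1⁻¹ * v.1.2)) ≤ 1
    rw [inv_one, one_mul, v.2]

end Pool.Agent.Helper462
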