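import Mathlib.Data.Fintype.Basic
import Mathlib.Tactic

/-!
Finite tables for the Artin group of type A tilde two with the generating set
a, b, c, aba, bcb, cac and their inverses (letters 0 .. 5 and 6 .. 11).
State 1 is the state of the identity, state 0 is dead.
-/

set_option autoImplicit false
set_option maxRecDepth 100000

namespace Pool.Agent.Helper462

/-- Packed transition table (six bits for each entry). -/
def stepT : ℕ := 21526156353435700879453223678795075725097375806178448207940990772927270603079706891900772184975344926608939958883537475392480997260046214395008763619052357177440915111976350604034918684753377301088849588294309913196823005069460683776763012197831666543886099701321317328204986454807982324924444120787034974020907739561280892159441233194372899908989249657049066214098033307181428258659875135532362798259828049700214114667340949636414654715921798007692882767104119081860661603749718092838001590545636176501860650821498422038006349082438042551506516021762243470995079011491227386018017733807862203173123178448364518192911002655852050062499793284830618589270261637839297393051820183536154898695472316470822626762666938313707702073777916407956869253984618622197775791992462725922205282851932622845029241485406319835915121034526720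

/-- Packed table of codes of products of two letters (seven bits for each entry). -/
def pcT : ℕ := 2073325313924801001040722808356090525030674612113217910988134368132477863621145385207207044514742107974499060075850359559156577568729575369184909233222338570752308283436987152752962498904478397467120444177320294814871346559018098653473054146090418732148590588744788293900430086295067362418503960022270209

/-- Packed table of the other products of two letters equal to `s q` (255 for none). -/
def altT : ℕ := 3742053650892133397476572564998827354725241679053079772899655229812640265839834354190485875004438330056058824474912678459363536076579209092449418136953358206921121111240852120115442962729217955738148455345144658126024604592743748638889446084259454656858223471449350730286770372252849492983954374576203086983158618171462640371712393470718134296918875837730468088716348655158851500966653968985111184194845891996095760858285751240736818008447909678358717720220673799592644025848091649115532874159983050481491631416894311285282880461489342734374401058794941270180954962253601172387672767256984606916982864774083114090630170254588756193315706206002157853381254646128792881371071889575955460466081791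

/-- Packed table of descent masks (twelve bits for each state). -/
def maskT : ℕ := 1499304555237326187901355532467343426895386521117539536541933956562585105406408300446103633282628384486084957696664222137603217319530495

/-- Packed table of the at most three descents (four bits for each entry). -/
def elT : ℕ := 61793372266230737982677075061967907592998914196109265681673437870582905007555923039341432034616998856410480525548419865769891519396839424

/-- The transition function: `step X t` is the state of `t w` when `X` is the state of `w`. -/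
def step (X : Fin 38) (t : Fin 12) : Fin 38 :=
  ⟨(stepT >>> (6 * (12 * X.1 + t.1))) % 64 % 38, Nat.mod_lt _ (by norm_num)⟩

/-- The code of the product `s t`. -/
def pc (s t : Fin 12) : ℕ := (pcT >>> (7 * (12 * s.1 + t.1))) % 128

/-- The inverse letter. -/
def inv (t : Fin 12) : Fin 12 := ⟨(t.1 + 6) % 12, Nat.mod_lt _ (by norm_num)⟩

/-- `t p = s q` as products of two letters of length two, by the table. -/
abbrev C (t p s q : Fin 12) : Prop := pc t p ≠ 0 ∧ pc t p = pc s q

/-- `t p = s q` is a nontrivial coincidence of products of two letters, by the table. -/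
abbrev R (t p s q : Fin 12) : Prop := t ≠ s ∧ pc t p ≠ 0 ∧ pc t p = pc s q

/-- The other products equal to `s q`. -/
def alt (i : Fin 2) (s q : Fin 12) : ℕ := (altT >>> (8 * (2 * (12 * s.1 + q.1) + i.1))) % 256

/-- First letter of a packed pair. -/
def hi (x : ℕ) : Fin 12 := ⟨x / 12 % 12, Nat.mod_lt _ (by norm_num)⟩

/-- Second letter of a packed pair. -/
def lo (x : ℕ) : Fin 12 := ⟨x % 12, Nat.mod_lt _ (by norm_num)⟩

/-- The mask of descents of a state. -/
def mask (X : Fin 38) : ℕ := (maskT >>> (12 * X.1)) % 4096

/-- The descents of a state. -/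
def el (i : Fin 3) (X : Fin 38) : Fin 12 :=
  ⟨(elT >>> (4 * (3 * X.1 + i.1))) % 16 % 12, Nat.mod_lt _ (by norm_num)⟩

theorem R_alt : ∀ s q t p, R s q t p → alt 0 s q = 12 * t.1 + p.1 ∨ alt 1 s q = 12 * t.1 + p.1 := by
  decide +kernel

theorem R_ind (P : Fin 12 → Fin 12 → Fin 12 → Fin 12 → Prop)
    (h : ∀ s q, ∀ i : Fin 2, alt i s q ≠ 255 → P s q (hi (alt i s q)) (lo (alt i s q)))
    {s q t p : Fin 12} (hR : R s q t p) : P s q t p := by
  have key : ∀ i : Fin 2, alt i s q = 12 * t.1 + p.1 → P s q t p := by
    intro i hi'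
    have h1 := t.2
    have h2 := p.2
    have h3 := h s q i (by omega)
    have e1 : hi (alt i s q) = t := by
      apply Fin.ext
      change alt i s q / 12 % 12 = t.1
      omega
    have e2 : lo (alt i s q) = p := by
      apply Fin.ext
      change alt i s q % 12 = p.1
      omega
    rw [e1, e2] at h3
    exact h3
  rcases R_alt s q t p hR with h' | h'
  · exact key 0 h'
  · exact key 1 h'

theorem inv_inv : ∀ t, inv (inv t) = t := by decide

theorem fc0 : ∀ t, step 1 t ≠ 0 := by decide +kernel

theorem step_zero : ∀ t, step 0 t = 0 := by decide +kernel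

theorem step_inv : ∀ X t, step (step X t) (inv t) = 0 := by decide +kernel

theorem R_symm {t p s q : Fin 12} (h : R t p s q) : R s q t p :=
  ⟨h.1.symm, h.2.2 ▸ h.2.1, h.2.2.symm⟩

theorem R_cancel : ∀ t p q, C t p t q → p = q := by decide +kernel

theorem R_trans {t p s q r m : Fin 12} (h : R t p s q) (h' : R s q r m) :
    (t = r ∧ p = m) ∨ R t p r m := by
  by_cases e : t = r
  · subst e
    exact Or.inl ⟨rfl, R_cancel _ _ _ ⟨h.2.1, h.2.2.trans h'.2.2⟩⟩
  · exact Or.inr ⟨e, h.2.1, h.2.2.trans h'.2.2⟩

theorem fc1' : ∀ s q, ∀ i : Fin 2, alt i s q ≠ 255 → ∀ Y,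
    step (step Y q) s = step (step Y (lo (alt i s q))) (hi (alt i s q)) := by
  decide +kernel

theorem fc1 {t p s q : Fin 12} (h : R t p s q) (Y : Fin 38) :
    step (step Y p) t = step (step Y q) s :=
  R_ind (fun t p s q => ∀ Y, step (step Y p) t = step (step Y q) s) fc1' h Y

theorem fc2' : ∀ X s t, step X s ≠ 0 → step (step X s) t = 0 → t ≠ inv s →
    ∃ p, step X p = 0 ∧ ∃ q, R s (inv p) (inv t) q := by
  decide +kernel

theorem fc2 {X : Fin 38} {s t : Fin 12} (h1 : step X s ≠ 0) (h2 : step (step X s) t = 0)
    (h3 : t ≠ inv s) : ∃ p q, step X p = 0 ∧ R s (inv p) (inv t) q := by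
  obtain ⟨p, h4, q, h5⟩ := fc2' X s t h1 h2 h3
  exact ⟨p, q, h4, h5⟩

/-- The conclusion of the third finite check. -/
abbrev concl (q m k s t p r q' : Fin 12) : Prop :=
  (t = r ∧ C p m q' k) ∨ (∃ p0 j, C p m p0 j ∧ ∃ q0, C q' k q0 j ∧ R t p0 r q0) ∨
    (∀ Z : Fin 38, step (step (step Z m) q) s = 0)

instance cd (q m k s t p r q' : Fin 12) : Decidable (concl q m k s t p r q') := inferInstance

theorem fc3' : ∀ q m : Fin 12, ∀ i : Fin 2, alt i q m ≠ 255 → ∀ s : Fin 12, ∀ j l : Fin 2,
    alt j s q ≠ 255 → alt l s (hi (alt i q m)) ≠ 255 →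
    concl q m (lo (alt i q m)) s (hi (alt j s q)) (lo (alt j s q))
      (hi (alt l s (hi (alt i q m)))) (lo (alt l s (hi (alt i q m)))) := by
  decide +kernel

theorem fc3 {q m p' k s t p r q' : Fin 12} (h1 : R q m p' k) (h2 : R t p s q) (h3 : R s p' r q') :
    concl q m k s t p r q' := by
  refine R_ind (fun q m p' k => ∀ s t p r q', R s q t p → R s p' r q' → concl q m k s t p r q')
    ?_ h1 s t p r q' (R_symm h2) h3
  intro q m i hi' s t p r q' h2 h3
  refine R_ind (fun s q t p => ∀ m (i : Fin 2), alt i q m ≠ 255 → ∀ r q', R s (hi (alt i q m)) r q' →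
    concl q m (lo (alt i q m)) s t p r q') ?_ h2 m i hi' r q' h3
  intro s q j hj m i hi' r q' h3
  refine R_ind (fun s p' r q' => ∀ q m (i j : Fin 2), alt i q m ≠ 255 → p' = hi (alt i q m) →
    alt j s q ≠ 255 → concl q m (lo (alt i q m)) s (hi (alt j s q)) (lo (alt j s q)) r q')
    ?_ h3 q m i j hi' rfl hj
  intro s p' l hl q m i j hi' e hj
  subst e
  exact fc3' q m i hi' s j l hj hl

theorem fc4a {s t s' t' : Fin 12} (h : R s t s' t') : R (inv t) (inv s) (inv t') (inv s') := by
  refine R_ind (fun s t s' t' => R (inv t) (inv s) (inv t') (inv s')) ?_ h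
  decide +kernel

theorem fc4b' : ∀ s t, ∀ i : Fin 2, alt i s t ≠ 255 → ∀ m, ∀ j : Fin 2, alt j (inv t) m ≠ 255 →
    hi (alt j (inv t) m) = inv (lo (alt i s t)) →
    R s m (hi (alt i s t)) (lo (alt j (inv t) m)) ∨ m = inv s := by
  decide +kernel

theorem fc4b {s t s' t' m k : Fin 12} (h : R s t s' t') (h' : R (inv t) m (inv t') k) :
    R s m s' k ∨ m = inv s := by
  refine R_ind (fun s t s' t' => ∀ m k, R (inv t) m (inv t') k → R s m s' k ∨ m = inv s)
    ?_ h m k h'
  intro s t i hi' m k h'
  refine R_ind (fun u m v k => ∀ s t (i : Fin 2), alt i s t ≠ 255 → u = inv t →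
    v = inv (lo (alt i s t)) → R s m (hi (alt i s t)) k ∨ m = inv s) ?_ h' s t i hi' rfl rfl
  intro u m j hj s t i hi' e1 e2
  subst e1
  exact fc4b' s t i hi' m j hj e2

theorem fc4c' : ∀ s t, ∀ i : Fin 2, alt i s t ≠ 255 → ∀ p, ∀ j : Fin 2, alt j t p ≠ 255 →
    hi (alt j t p) = inv s →
    (lo (alt i s t) ≠ inv p ∧
      R (lo (alt i s t)) p (inv (hi (alt i s t))) (lo (alt j t p))) ∨
    (lo (alt i s t) = inv p ∧ hi (alt i s t) = lo (alt j t p)) := by
  decide +kernel

theorem fc4c {s t s' t' p q : Fin 12} (h : R s t s' t') (h' : R t p (inv s) q) :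
    (t' ≠ inv p ∧ R t' p (inv s') q) ∨ (t' = inv p ∧ s' = q) := by
  refine R_ind (fun s t s' t' => ∀ p q, R t p (inv s) q →
    (t' ≠ inv p ∧ R t' p (inv s') q) ∨ (t' = inv p ∧ s' = q)) ?_ h p q h'
  intro s t i hi' p q h'
  refine R_ind (fun t p v q => ∀ s (i : Fin 2), alt i s t ≠ 255 → v = inv s →
    (lo (alt i s t) ≠ inv p ∧ R (lo (alt i s t)) p (inv (hi (alt i s t))) q) ∨
    (lo (alt i s t) = inv p ∧ hi (alt i s t) = q)) ?_ h' s i hi' rfl
  intro t p j hj s i hi' e1
  exact fc4c' s t i hi' p j hj e1

theorem fc4e' : ∀ s t, ∀ i : Fin 2, alt i s t ≠ 255 → ∀ p, ∀ j : Fin 2, alt j t p ≠ 255 →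
    hi (alt j t p) = inv s → ∀ m, ∀ l : Fin 2, alt l p m ≠ 255 →
    hi (alt l p m) = inv (lo (alt i s t)) →
    R (lo (alt j t p)) m (hi (alt i s t)) (lo (alt l p m)) ∨
    (lo (alt j t p) = hi (alt i s t) ∧ m = lo (alt l p m)) ∨ m = inv (lo (alt j t p)) := by
  decide +kernel

theorem fc4e {s t s' t' p q m k : Fin 12} (h : R s t s' t') (h' : R t p (inv s) q)
    (h'' : R p m (inv t') k) : R q m s' k ∨ (q = s' ∧ m = k) ∨ m = inv q := by
  refine R_ind (fun s t s' t' => ∀ p q m k, R t p (inv s) q → R p m (inv t') k →
    R q m s' k ∨ (q = s' ∧ m = k) ∨ m = inv q) ?_ h p q m k h' h''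
  intro s t i hi' p q m k h' h''
  refine R_ind (fun t p v q => ∀ s (i : Fin 2), alt i s t ≠ 255 → v = inv s → ∀ m k,
    R p m (inv (lo (alt i s t))) k → R q m (hi (alt i s t)) k ∨
      (q = hi (alt i s t) ∧ m = k) ∨ m = inv q) ?_ h' s i hi' rfl m k h''
  intro t p j hj s i hi' e1 m k h''
  refine R_ind (fun p m w k => ∀ s t (i : Fin 2), alt i s t ≠ 255 → ∀ j : Fin 2, alt j t p ≠ 255 →
    hi (alt j t p) = inv s → w = inv (lo (alt i s t)) →
    R (lo (alt j t p)) m (hi (alt i s t)) k ∨
      (lo (alt j t p) = hi (alt i s t) ∧ m = k) ∨ m = inv (lo (alt j t p))) ?_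
    h'' s t i hi' j hj e1 rfl
  intro p m l hl s t i hi' j hj e1 e2
  exact fc4e' s t i hi' p j hj e1 m l hl e2

theorem el_spec : ∀ X : Fin 38, X ≠ 0 → ∀ t, step X t = 0 → t = el 0 X ∨ t = el 1 X ∨ t = el 2 X := by
  decide +kernel

theorem mask_spec : ∀ X : Fin 38, ∀ t, step X t = 0 → ∀ Y : Fin 38, step Y t = 0 →
    mask X &&& mask Y ≠ 0 := by
  decide +kernel

theorem fc5' : ∀ X : Fin 38, X ≠ 0 → ∀ X1 : Fin 38, mask X &&& mask X1 ≠ 0 →
    step X1 (el 0 X) ≠ 0 → ∀ X2 : Fin 38, mask X &&& mask X2 ≠ 0 → mask X1 &&& mask X2 ≠ 0 →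
    step X2 (el 1 X) ≠ 0 → ∀ X3 : Fin 38, mask X &&& mask X3 ≠ 0 → mask X1 &&& mask X3 ≠ 0 →
    mask X2 &&& mask X3 ≠ 0 → step X3 (el 2 X) = 0 := by
  decide +kernel

/-- The Helly property of the family of descent sets. -/
theorem fc5 {I : Type} (f : I → Fin 38) (h : ∀ i j, ∃ t, step (f i) t = 0 ∧ step (f j) t = 0)
    (h0 : ∀ i, f i ≠ 0) : ∃ t, ∀ i, step (f i) t = 0 := by
  by_contra hc
  push Not at hc
  obtain ⟨i0, -⟩ := hc 0
  obtain ⟨i1, h1⟩ := hc (el 0 (f i0))
  obtain ⟨i2, h2⟩ := hc (el 1 (f i0))
  obtain ⟨i3, h3⟩ := hc (el 2 (f i0))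
  have m : ∀ i j, mask (f i) &&& mask (f j) ≠ 0 := by
    intro i j
    obtain ⟨t, h1, h2⟩ := h i j
    exact mask_spec _ t h1 _ h2
  exact h3 (fc5' _ (h0 i0) _ (m i0 i1) h1 _ (m i0 i2) (m i1 i2) h2 _ (m i0 i3) (m i1 i3) (m i2 i3))

end Pool.Agent.Helper462
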